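import Pool.Agent.H17.RX.Stm

/-! Project RX, part NR: the rank one operator of a real datum is not in the weak closure. -/

set_option autoImplicit false
open Filter Topology MeasureTheory
open scoped ComplexConjugate ENNReal

namespace Pool.Agent.H94.RX

open Pool.Agent.H17.RX

section

variable {X : Type} [NormedAddCommGroup X] [NormedSpace ℝ X] {U : Ultrafilter ℕ}

/-- bounded sequence as an element -/
noncomputable def mkB (f : ℕ → X) (C : ℝ) (h : ∀ i, ‖f i‖ ≤ C) : BoundedContinuousFunction ℕ X :=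
  BoundedContinuousFunction.ofNormedAddCommGroup f continuous_of_discreteTopology C h

omit [NormedSpace ℝ X] in
@[simp] theorem mkB_apply (f : ℕ → X) (C : ℝ) (h : ∀ i, ‖f i‖ ≤ C) (i : ℕ) :
    mkB f C h i = f i := rfl

theorem mk_eq_of_ev (f g : BoundedContinuousFunction ℕ X)
    (h : ∀ᶠ i in (U : Filter ℕ), f i = g i) :
    (Submodule.Quotient.mk f : UPow X U) = Submodule.Quotient.mk g := by
  rw [Submodule.Quotient.eq]
  show Tendsto (fun n => (f - g) n) (U : Filter ℕ) (𝓝 0)
  apply Tendsto.congr' _ tendsto_const_nhds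
  filter_upwards [h] with i hi
  simp [hi]

theorem norm_mk_le_of_ev (f : BoundedContinuousFunction ℕ X) (K : ℝ) (hK : 0 ≤ K)
    (h : ∀ᶠ i in (U : Filter ℕ), ‖f i‖ ≤ K) :
    ‖(Submodule.Quotient.mk f : UPow X U)‖ ≤ K := by
  classical
  obtain ⟨g, hg⟩ : ∃ g : BoundedContinuousFunction ℕ X,
      ∀ i, g i = if ‖f i‖ ≤ K then f i else 0 :=
    ⟨mkB (fun i => if ‖f i‖ ≤ K then f i else 0) K (by
      intro i
      by_cases h1 : ‖f i‖ ≤ K
      · rw [if_pos h1]; exact h1
      · rw [if_neg h1, norm_zero]; exact hK), fun i => rfl⟩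
  have e : (Submodule.Quotient.mk f : UPow X U) = Submodule.Quotient.mk g := by
    apply mk_eq_of_ev
    filter_upwards [h] with i hi
    rw [hg, if_pos hi]
  rw [e]
  refine (Submodule.Quotient.norm_mk_le _ _).trans ?_
  rw [BoundedContinuousFunction.norm_le hK]
  intro i
  rw [hg]
  by_cases h1 : ‖f i‖ ≤ K
  · rw [if_pos h1]; exact h1
  · rw [if_neg h1, norm_zero]; exact hK

theorem exists_lim (f : ℕ → ℝ) (C : ℝ) (h : ∀ i, |f i| ≤ C) :
    ∃ l, Tendsto f (U : Filter ℕ) (𝓝 l) := by
  have h1 : Set.Icc (-C) C ∈ (U.map f : Ultrafilter ℝ) := by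
    rw [Ultrafilter.mem_map]
    filter_upwards with i
    exact abs_le.1 (h i)
  obtain ⟨l, -, hl⟩ := isCompact_Icc.ultrafilter_le_nhds' (U.map f) h1
  exact ⟨l, hl⟩

theorem exists_fn (g : ℕ → (X →L[ℝ] ℝ)) (C : ℝ) (hC0 : 0 ≤ C) (hC : ∀ i, ‖g i‖ ≤ C) :
    ∃ a : UPow X U →L[ℝ] ℝ, ∀ x : BoundedContinuousFunction ℕ X,
      Tendsto (fun i => g i (x i)) (U : Filter ℕ) (𝓝 (a (Submodule.Quotient.mk x))) := by
  have hb : ∀ (x : BoundedContinuousFunction ℕ X) i, |g i (x i)| ≤ C * ‖x‖ := fun x i => by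
    calc |g i (x i)| = ‖g i (x i)‖ := rfl
      _ ≤ ‖g i‖ * ‖x i‖ := (g i).le_opNorm _
      _ ≤ C * ‖x‖ := mul_le_mul (hC i) (x.norm_coe_le_norm i) (norm_nonneg _) hC0
  choose l hl using fun x : BoundedContinuousFunction ℕ X =>
    exists_lim (U := U) (fun i => g i (x i)) (C * ‖x‖) (hb x)
  obtain ⟨A, hA⟩ : ∃ A : BoundedContinuousFunction ℕ X →ₗ[ℝ] ℝ, ∀ x, A x = l x := by
    refine ⟨{ toFun := l, map_add' := fun x y => ?_, map_smul' := fun c x => ?_ }, fun x => rfl⟩
    · apply tendsto_nhds_unique (hl (x + y))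
      refine ((hl x).add (hl y)).congr fun i => ?_
      simp
    · apply tendsto_nhds_unique (hl (c • x))
      refine ((hl x).const_mul c).congr fun i => ?_
      simp
  have hker : nullSub X U ≤ LinearMap.ker A := by
    intro x hx
    rw [LinearMap.mem_ker, hA]
    apply tendsto_nhds_unique (hl x)
    have hx' : Tendsto (fun n => x n) (U : Filter ℕ) (𝓝 0) := hx
    have h1 := (hx'.norm).const_mul C
    rw [norm_zero, mul_zero] at h1
    apply squeeze_zero_norm _ h1
    intro i
    exact ((g i).le_opNorm _).trans (mul_le_mul_of_nonneg_right (hC i) (norm_nonneg _))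
  have hbound : ∀ q : UPow X U, ‖(nullSub X U).liftQ A hker q‖ ≤ C * ‖q‖ := by
    intro q
    apply le_of_forall_pos_le_add
    intro ε hε
    obtain ⟨y, rfl, hy⟩ := Submodule.Quotient.norm_mk_lt q (show 0 < ε / (C + 1) by positivity)
    rw [Submodule.liftQ_apply, hA]
    have h1 : ‖l y‖ ≤ C * ‖y‖ := le_of_tendsto (hl y).norm (Eventually.of_forall fun i => hb y i)
    have h2 : C * ‖y‖ ≤ C * (‖(Submodule.Quotient.mk y : UPow X U)‖ + ε / (C + 1)) :=
      mul_le_mul_of_nonneg_left hy.le hC0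
    have h3 : C * (ε / (C + 1)) ≤ ε := by
      rw [mul_div_assoc', div_le_iff₀ (by positivity)]
      nlinarith
    rw [mul_add] at h2
    linarith
  refine ⟨LinearMap.mkContinuous ((nullSub X U).liftQ A hker) C hbound, fun x => ?_⟩
  have e : LinearMap.mkContinuous ((nullSub X U).liftQ A hker) C hbound
      (Submodule.Quotient.mk x) = l x := by
    rw [LinearMap.mkContinuous_apply, Submodule.liftQ_apply, hA]
  rw [e]
  exact hl x

theorem upMap_mk (T : X →L[ℝ] X) (x : BoundedContinuousFunction ℕ X) :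
    upMap U T (Submodule.Quotient.mk x) =
      Submodule.Quotient.mk (T.compLeftContinuousBounded ℕ x) := rfl

theorem upMap_mem (T : X →L[ℝ] X) : upMap U T ∈ algU X U := by
  intro n y φ ε hε
  exact ⟨upMap U T, ⟨T, rfl⟩, fun i => by simpa using hε⟩

end

theorem t_NR : S_NR := by
  intro X _ _ R P hPR U z y J hD hrefl
  -- the elements
  obtain ⟨zb, hzb⟩ : ∃ zb : BoundedContinuousFunction ℕ X, ∀ i, zb i = R (z i) :=
    ⟨mkB (fun i => R (z i)) ‖R‖ (fun i => by
      have := R.le_opNorm (z i)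
      rwa [hD.nz, mul_one] at this), fun i => rfl⟩
  obtain ⟨yb, hyb⟩ : ∃ yb : BoundedContinuousFunction ℕ X, ∀ i, yb i = R (y i) :=
    ⟨mkB (fun i => R (y i)) ‖R‖ (fun i => by
      have := R.le_opNorm (y i)
      rwa [hD.ny, mul_one] at this), fun i => rfl⟩
  obtain ⟨ζ, hζ⟩ : ∃ ζ : UPow X U, ζ = Submodule.Quotient.mk zb := ⟨_, rfl⟩
  obtain ⟨η, hη⟩ : ∃ η : UPow X U, η = Submodule.Quotient.mk yb := ⟨_, rfl⟩
  -- the functionals
  have hfn : ∀ w : ℕ → L2, (∀ i, ‖w i‖ = 1) → ∃ a : UPow X U →L[ℝ] ℝ,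
      ∀ x : BoundedContinuousFunction ℕ X,
      Tendsto (fun i => inner ℝ (w i) (P (x i))) (U : Filter ℕ)
        (𝓝 (a (Submodule.Quotient.mk x))) := by
    intro w hw
    obtain ⟨a, ha⟩ := exists_fn (U := U) (fun i => (innerSL ℝ (w i)).comp P) ‖P‖ (norm_nonneg _)
      (fun i => by
        refine (ContinuousLinearMap.opNorm_comp_le _ _).trans ?_
        rw [innerSL_apply_norm, hw, one_mul])
    exact ⟨a, fun x => ha x⟩
  obtain ⟨a, ha⟩ := hfn z hD.nz
  obtain ⟨b, hb⟩ := hfn y hD.ny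
  have haζ : a ζ = 1 := by
    rw [hζ]
    apply tendsto_nhds_unique (ha zb)
    apply tendsto_const_nhds.congr
    intro i
    rw [hzb, hPR, real_inner_self_eq_norm_sq, hD.nz]
    norm_num
  have hbζ : b ζ = 0 := by
    rw [hζ]
    apply tendsto_nhds_unique (hb zb)
    apply tendsto_const_nhds.congr
    intro i
    rw [hzb, hPR, real_inner_comm, hD.zy]
  have haη : a η = 0 := by
    rw [hη]
    apply tendsto_nhds_unique (ha yb)
    apply tendsto_const_nhds.congr
    intro i
    rw [hyb, hPR, hD.zy]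
  -- the operator
  obtain ⟨S, hS⟩ : ∃ S : UPow X U →L[ℝ] UPow X U, ∀ x, S x = a x • ζ :=
    ⟨a.smulRight ζ, fun x => rfl⟩
  have hmem : S ∈ algU X U := by
    apply hrefl S
    intro N hN hinv x hx
    obtain ⟨x0, rfl⟩ := Submodule.Quotient.mk_surjective _ x
    obtain ⟨α, hα⟩ : ∃ α, α = a (Submodule.Quotient.mk x0) := ⟨_, rfl⟩
    obtain ⟨β, hβ⟩ : ∃ β, β = b (Submodule.Quotient.mk x0) := ⟨_, rfl⟩
    rw [hS, ← hα]
    rcases eq_or_ne α 0 with h0 | h0
    · rw [h0, zero_smul]; exact N.zero_mem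
    have ha' := ha x0
    have hb' := hb x0
    rw [← hα] at ha'
    rw [← hβ] at hb'
    -- `α ζ + β η ∈ N`
    have h1 : α • ζ + β • η ∈ N := by
      have hcl : α • ζ + β • η ∈ closure (N : Set (UPow X U)) := by
        rw [Metric.mem_closure_iff]
        intro δ hδ
        obtain ⟨M, hM⟩ : ∃ M : ℝ, M = ‖P‖ * ‖x0‖ + 1 := ⟨_, rfl⟩
        have hM0 : 0 < M := by rw [hM]; positivity
        obtain ⟨ε, hε⟩ : ∃ ε : ℝ, ε = δ / (2 * ((‖R‖ + 1) * (M + 2))) := ⟨_, rfl⟩
        have hε0 : 0 < ε := by rw [hε]; positivity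
        obtain ⟨T, hT⟩ := hD.B (fun i => M⁻¹ • P (x0 i)) (by
          intro i
          rw [norm_smul, Real.norm_eq_abs, abs_of_pos (inv_pos.2 hM0), inv_mul_le_iff₀ hM0, mul_one]
          have h2 := P.le_opNorm (x0 i)
          have h3 : ‖P‖ * ‖x0 i‖ ≤ ‖P‖ * ‖x0‖ :=
            mul_le_mul_of_nonneg_left (x0.norm_coe_le_norm i) (norm_nonneg _)
          rw [hM]
          linarith) ε hε0
        refine ⟨upMap U (R.comp (T.comp P)) (Submodule.Quotient.mk x0),
          hinv _ (upMap_mem _) _ hx, ?_⟩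
        rw [dist_eq_norm, upMap_mk, hζ, hη, ← Submodule.Quotient.mk_smul,
          ← Submodule.Quotient.mk_smul, ← Submodule.Quotient.mk_add, ← Submodule.Quotient.mk_sub]
        have hle : (‖R‖ + 1) * (M + 2) * ε < δ := by
          have h5 : (‖R‖ + 1) * (M + 2) * ε = δ / 2 := by
            rw [hε]
            have : (‖R‖ + 1) * (M + 2) ≠ 0 := by positivity
            field_simp
          rw [h5]; linarith
        refine lt_of_le_of_lt (norm_mk_le_of_ev _ ((‖R‖ + 1) * (M + 2) * ε) (by positivity) ?_) hle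
        have e1 : ∀ᶠ i in (U : Filter ℕ), |inner ℝ (z i) (P (x0 i)) - α| < ε := by
          have := (Metric.tendsto_nhds.1 ha') ε hε0
          filter_upwards [this] with i hi
          rwa [Real.dist_eq] at hi
        have e2 : ∀ᶠ i in (U : Filter ℕ), |inner ℝ (y i) (P (x0 i)) - β| < ε := by
          have := (Metric.tendsto_nhds.1 hb') ε hε0
          filter_upwards [this] with i hi
          rwa [Real.dist_eq] at hi
        filter_upwards [hT, e1, e2] with i h2 h3 h4
        have e3 : (α • zb + β • yb - (R.comp (T.comp P)).compLeftContinuousBounded ℕ x0) i =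
            R (α • z i + β • y i - T (P (x0 i))) := by
          simp [hzb, hyb]
        rw [e3]
        refine (R.le_opNorm _).trans ?_
        have e4 : T (P (x0 i)) = M • T (M⁻¹ • P (x0 i)) := by
          rw [map_smul, smul_smul, mul_inv_cancel₀ hM0.ne', one_smul]
        have e5 : α • z i + β • y i - T (P (x0 i)) =
            -(M • (T (M⁻¹ • P (x0 i)) - (inner ℝ (z i) (M⁻¹ • P (x0 i)) • z i +
              inner ℝ (y i) (M⁻¹ • P (x0 i)) • y i))) -
            ((inner ℝ (z i) (P (x0 i)) - α) • z i) - ((inner ℝ (y i) (P (x0 i)) - β) • y i) := by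
          rw [e4, inner_smul_right, inner_smul_right, smul_sub, smul_add, smul_smul, smul_smul,
            ← mul_assoc, ← mul_assoc, mul_inv_cancel₀ hM0.ne', one_mul, one_mul, sub_smul, sub_smul]
          abel
        have e6 : ‖α • z i + β • y i - T (P (x0 i))‖ ≤ M * ε + ε + ε := by
          rw [e5]
          refine (norm_sub_le _ _).trans (add_le_add ((norm_sub_le _ _).trans
            (add_le_add ?_ ?_)) ?_)
          · rw [norm_neg, norm_smul, Real.norm_eq_abs, abs_of_pos hM0]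
            exact mul_le_mul_of_nonneg_left h2 hM0.le
          · rw [norm_smul, hD.nz, mul_one]
            exact h3.le
          · rw [norm_smul, hD.ny, mul_one]
            exact h4.le
        calc ‖R‖ * ‖α • z i + β • y i - T (P (x0 i))‖ ≤ (‖R‖ + 1) * (M * ε + ε + ε) :=
              mul_le_mul (by linarith) e6 (norm_nonneg _) (by positivity)
          _ = (‖R‖ + 1) * (M + 2) * ε := by ring
      rwa [hN.closure_eq] at hcl
    -- `(α² + β²) ζ ∈ N`
    have h2 := hinv _ (upMap_mem (U := U)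
      (R.comp ((α • ContinuousLinearMap.id ℝ L2 - β • J).comp P))) _ h1
    have h3 : upMap U (R.comp ((α • ContinuousLinearMap.id ℝ L2 - β • J).comp P))
        (α • ζ + β • η) = (α ^ 2 + β ^ 2) • ζ := by
      rw [hζ, hη, ← Submodule.Quotient.mk_smul, ← Submodule.Quotient.mk_smul,
        ← Submodule.Quotient.mk_add, upMap_mk, ← Submodule.Quotient.mk_smul]
      apply mk_eq_of_ev
      filter_upwards with i
      have e7 : ((R.comp ((α • ContinuousLinearMap.id ℝ L2 - β • J).comp P)).compLeftContinuousBounded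
          ℕ (α • zb + β • yb)) i = R (α • (P (α • R (z i) + β • R (y i))) -
            β • J (P (α • R (z i) + β • R (y i)))) := by
        have e9 : (α • zb + β • yb) i = α • R (z i) + β • R (y i) := by simp [hzb, hyb]
        show R ((α • ContinuousLinearMap.id ℝ L2 - β • J) (P ((α • zb + β • yb) i))) = _
        rw [e9]
        rfl
      have e8 : P (α • R (z i) + β • R (y i)) = α • z i + β • y i := by
        rw [map_add, map_smul, map_smul, hPR, hPR]
      rw [e7, e8, map_add, map_smul, map_smul, hD.Jz, hD.Jy]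
      show _ = (α ^ 2 + β ^ 2) • zb i
      rw [hzb, ← map_smul]
      congr 1
      rw [smul_add, smul_add, smul_smul, smul_smul, smul_smul, smul_smul, add_smul, smul_neg,
        mul_comm β α, sq, sq]
      abel
    rw [h3] at h2
    have h4 : (α ^ 2 + β ^ 2) ≠ 0 := by
      have : 0 < α ^ 2 := by positivity
      positivity
    have h5 : ζ ∈ N := by
      have := N.smul_mem (α ^ 2 + β ^ 2)⁻¹ h2
      rwa [smul_smul, inv_mul_cancel₀ h4, one_smul] at this
    exact N.smul_mem _ h5
  -- `S` is not in the weak closure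
  obtain ⟨T, ⟨T0, rfl⟩, hT⟩ := hmem 2 ![ζ, η] ![a, b] (1 / 4) (by norm_num)
  have h0 := hT 0
  have h1 := hT 1
  simp only [Matrix.cons_val_zero, Matrix.cons_val_one] at h0 h1
  rw [hS, map_sub, map_smul, haζ, smul_eq_mul, mul_one] at h0
  rw [hS, haη, zero_smul, zero_sub, map_neg, abs_neg] at h1
  have h2 := ha (T0.compLeftContinuousBounded ℕ zb)
  have h3 := hb (T0.compLeftContinuousBounded ℕ yb)
  rw [← upMap_mk, ← hζ] at h2
  rw [← upMap_mk, ← hη] at h3
  have h4 := hD.A (P.comp (T0.comp R))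
  have h5 : a (upMap U T0 ζ) - b (upMap U T0 η) = 0 := by
    apply tendsto_nhds_unique (h2.sub h3)
    refine h4.congr fun i => ?_
    simp [hzb, hyb]
  have h6 := abs_lt.1 h0
  have h7 := abs_lt.1 h1
  linarith [h6.1, h6.2, h7.1, h7.2]

end Pool.Agent.H94.RX
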